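import Mathlib
import Pool.Agent.HIG.Main

/-!
# For every n >= 3 the variety of groups solvable of index n is Higman
-/

namespace Pool.Agent.Results.MP_d47845_al.SolvableGroupsHigman

open Function

universe u

/-- The relatively free group of rank `k` of the variety of groups solvable of index `n`:
the free group of rank `k` modulo the `n`-th term of its derived series. -/
abbrev RelFree (n k : ℕ) : Type :=
  FreeGroup (Fin k) ⧸ derivedSeries (FreeGroup (Fin k)) n

/-- `G` is finitely presented in the variety of groups solvable of index `n`: it is the quotient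
of a relatively free group of finite rank by the normal subgroup generated by a finite set. -/
def FinPresIn (n : ℕ) (G : Type u) [Group G] : Prop :=
  ∃ (k : ℕ) (R : Set (RelFree n k)), R.Finite ∧
    Nonempty (G ≃* (RelFree n k ⧸ Subgroup.normalClosure R))

/-- `G` is recursively presented in the variety of groups solvable of index `n`: it is the
quotient of a relatively free group of finite rank by the normal subgroup generated by the
elements represented by a recursively enumerable set of words. -/
def RecPresIn (n : ℕ) (G : Type u) [Group G] : Prop :=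
  ∃ (k : ℕ) (R : Set (List (Fin k × Bool))), REPred (fun w => w ∈ R) ∧
    Nonempty (G ≃* (RelFree n k ⧸ Subgroup.normalClosure
      ((fun w => (QuotientGroup.mk (FreeGroup.mk w) : RelFree n k)) '' R)))

/-- The variety of groups solvable of index `n` is Higman: every group recursively presented in
it is isomorphic to a subgroup of a group finitely presented in it. -/
def IsHigman (n : ℕ) : Prop :=
  ∀ (G : Type u) [Group G], RecPresIn n G →
    ∃ (H : Type u) (_ : Group H), FinPresIn n H ∧ ∃ f : G →* H, Injective f

/-- For every `n ≥ 3` the variety of groups solvable of index `n` is Higman. -/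
theorem result : ∀ n : ℕ, 3 ≤ n → IsHigman.{u} n := by
  intro n hn G _ hG
  obtain ⟨k, R, hR, ⟨φ⟩⟩ := hG
  obtain ⟨H, _, ⟨k', R', hR', ⟨ψ⟩⟩, f, hf⟩ := Pool.Agent.HIG.higman_of_three_le n hn
    (RelFree n k ⧸ Subgroup.normalClosure
      ((fun w => (QuotientGroup.mk (FreeGroup.mk w) : RelFree n k)) '' R))
    ⟨k, R, hR, ⟨MulEquiv.refl _⟩⟩
  refine ⟨ULift.{u} H, inferInstance, ⟨k', R', hR', ⟨MulEquiv.ulift.trans ψ⟩⟩,
    (MulEquiv.ulift.symm.toMonoidHom.comp f).comp φ.toMonoidHom, ?_⟩
  exact (MulEquiv.ulift.symm.injective.comp hf).comp φ.injective

end Pool.Agent.Results.MP_d47845_al.SolvableGroupsHigman
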