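import Mathlib
import Pool.Agent.HIL.NegAsm
import Pool.Agent.HIL.NegLB
import Pool.Agent.HIL.NCA
import Pool.Agent.HIL.NMOD
import Pool.Agent.HIL.NRE
import Pool.Agent.HIL.Model

/-!
# For every n >= 3 the variety of Lie algebras over F_2 solvable of index n is not Higman
-/

noncomputable section

namespace Pool.Agent.Results.MP_d47845_al.SolvableLieCharTwo

open Function

/-- The left-normed commutator `[[...[a, b], ...], c]` of a list of elements of a Lie ring
(`0` for the empty list). -/
def lnorm {L : Type} [LieRing L] : List L → L
  | [] => 0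
  | a :: l => l.foldl (fun u v => ⁅u, v⁆) a

/-- The relatively free Lie algebra of rank `k` of the variety of Lie algebras over `F` solvable
of index `n`: the free Lie algebra modulo the `n`-th term of its derived series. -/
abbrev RelFree (F : Type) [Field F] (n k : ℕ) : Type :=
  FreeLieAlgebra F (Fin k) ⧸ LieAlgebra.derivedSeries F (FreeLieAlgebra F (Fin k)) n

/-- Expressions for the elements of a free Lie algebra on letters `x_0, ..., x_(k-1)` over a prime
field: finite formal sums of left-normed monomials; the entry `((a, b), w)` stands for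
`a / (b + 1)` times the left-normed commutator of the letters of `w`. -/
abbrev Expr (k : ℕ) : Type := List ((ℤ × ℕ) × List (Fin k))

/-- The value of an expression in the free Lie algebra. -/
def Expr.val (F : Type) [Field F] {k : ℕ} (e : Expr k) : FreeLieAlgebra F (Fin k) :=
  (e.map fun t => ((t.1.1 : F) / ((t.1.2 : F) + 1)) •
    lnorm (t.2.map (FreeLieAlgebra.of F))).sum

/-- `H` is finitely presented in the variety of Lie algebras over `F` solvable of index `n`:
it is the quotient of a relatively free algebra of finite rank by the ideal generated by a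
finite set. -/
def FinPresIn (F : Type) [Field F] (n : ℕ) (H : Type) [LieRing H] [LieAlgebra F H] : Prop :=
  ∃ (k : ℕ) (R : Set (RelFree F n k)), R.Finite ∧
    Nonempty (H ≃ₗ⁅F⁆ (RelFree F n k ⧸ LieSubmodule.lieSpan F (RelFree F n k) R))

/-- `G` is recursively presented in the variety of Lie algebras over the prime field `F` solvable
of index `n`: it is the quotient of a relatively free algebra of finite rank by the ideal
generated by the values of a recursively enumerable set of expressions. -/
def RecPresIn (F : Type) [Field F] (n : ℕ) (G : Type) [LieRing G] [LieAlgebra F G] : Prop :=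
  ∃ (k : ℕ) (R : Set (Expr k)), REPred (fun e => e ∈ R) ∧
    Nonempty (G ≃ₗ⁅F⁆ (RelFree F n k ⧸ LieSubmodule.lieSpan F (RelFree F n k)
      ((fun e : Expr k => (LieSubmodule.Quotient.mk (e.val F) : RelFree F n k)) '' R)))

/-- The variety of Lie algebras over the prime field `F` solvable of index `n` is Higman: every
algebra recursively presented in it is isomorphic to a subalgebra of an algebra finitely presented
in it. -/
def IsHigman (F : Type) [Field F] (n : ℕ) : Prop :=
  ∀ (G : Type) [LieRing G] [LieAlgebra F G], RecPresIn F n G →
    ∃ (H : Type) (_ : LieRing H) (_ : LieAlgebra F H), FinPresIn F n H ∧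
      ∃ f : G →ₗ⁅F⁆ H, Injective f

theorem lnorm_eq {L : Type} [LieRing L] (l : List L) :
    lnorm l = Pool.Agent.HIL.lnorm l := by
  cases l <;> rfl

theorem val_eq (F : Type) [Field F] {k : ℕ} (e : Expr k) :
    e.val F = Pool.Agent.HIL.LExpr.val F e := by
  unfold Expr.val Pool.Agent.HIL.LExpr.val
  simp only [lnorm_eq]

/-- For every `n ≥ 3` the variety of Lie algebras over the field with two elements solvable of
index `n` is not Higman. -/
theorem result : ∀ n : ℕ, 3 ≤ n → ¬ IsHigman (ZMod 2) n := by
  intro n hn h
  refine Pool.Agent.HIL.negasm_proof Pool.Agent.HIL.nca_proof Pool.Agent.HIL.la_proof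
    Pool.Agent.HIL.lb_proof Pool.Agent.HIL.nmod_proof Pool.Agent.HIL.model_proof
    Pool.Agent.HIL.nre_proof n hn ?_
  intro G _ _ hG
  refine h G ?_
  obtain ⟨k, R, hR, e⟩ := hG
  refine ⟨k, R, hR, ?_⟩
  have hf : (fun e : Expr k => (LieSubmodule.Quotient.mk (e.val (ZMod 2)) :
      RelFree (ZMod 2) n k)) = fun e : Expr k =>
      (LieSubmodule.Quotient.mk (Pool.Agent.HIL.LExpr.val (ZMod 2) e) :
      RelFree (ZMod 2) n k) := by
    funext e
    rw [val_eq]
  rw [hf]
  exact e

end Pool.Agent.Results.MP_d47845_al.SolvableLieCharTwo
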