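import Mathlib
import Pool.Agent.HIP.Main

/-!
# For every n >= 1 the variety of Lie algebras solvable of index n over Q, and over F_p for every
odd prime p, is Higman
-/

noncomputable section

namespace Pool.Agent.Results.MP_d47845_al.SolvableLieHigman

open Function

/-- The left-normed commutator `[[...[a, b], ...], c]` of a list of elements of a Lie ring
(`0` for the empty list). -/
def lnorm {L : Type} [LieRing L] : List L → L
  | [] => 0
  | a :: l => l.foldl (fun u v => ⁅u, v⁆) a

/-- The relatively free Lie algebra of rank `k` of the variety of Lie algebras over `F` solvable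
of index `n`: the free Lie algebra modulo the `n`-th term of its derived series. -/
abbrev RelFree (F : Type) [Field F] (n k : ℕ) : Type :=
  FreeLieAlgebra F (Fin k) ⧸ LieAlgebra.derivedSeries F (FreeLieAlgebra F (Fin k)) n

/-- Expressions for the elements of a free Lie algebra on letters `x_0, ..., x_(k-1)` over a prime
field: finite formal sums of left-normed monomials; the entry `((a, b), w)` stands for
`a / (b + 1)` times the left-normed commutator of the letters of `w`. -/
abbrev Expr (k : ℕ) : Type := List ((ℤ × ℕ) × List (Fin k))

/-- The value of an expression in the free Lie algebra. -/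
def Expr.val (F : Type) [Field F] {k : ℕ} (e : Expr k) : FreeLieAlgebra F (Fin k) :=
  (e.map fun t => ((t.1.1 : F) / ((t.1.2 : F) + 1)) •
    lnorm (t.2.map (FreeLieAlgebra.of F))).sum

/-- `H` is finitely presented in the variety of Lie algebras over `F` solvable of index `n`:
it is the quotient of a relatively free algebra of finite rank by the ideal generated by a
finite set. -/
def FinPresIn (F : Type) [Field F] (n : ℕ) (H : Type) [LieRing H] [LieAlgebra F H] : Prop :=
  ∃ (k : ℕ) (R : Set (RelFree F n k)), R.Finite ∧
    Nonempty (H ≃ₗ⁅F⁆ (RelFree F n k ⧸ LieSubmodule.lieSpan F (RelFree F n k) R))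

/-- `G` is recursively presented in the variety of Lie algebras over the prime field `F` solvable
of index `n`: it is the quotient of a relatively free algebra of finite rank by the ideal
generated by the values of a recursively enumerable set of expressions. -/
def RecPresIn (F : Type) [Field F] (n : ℕ) (G : Type) [LieRing G] [LieAlgebra F G] : Prop :=
  ∃ (k : ℕ) (R : Set (Expr k)), REPred (fun e => e ∈ R) ∧
    Nonempty (G ≃ₗ⁅F⁆ (RelFree F n k ⧸ LieSubmodule.lieSpan F (RelFree F n k)
      ((fun e : Expr k => (LieSubmodule.Quotient.mk (e.val F) : RelFree F n k)) '' R)))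

/-- The variety of Lie algebras over the prime field `F` solvable of index `n` is Higman: every
algebra recursively presented in it is isomorphic to a subalgebra of an algebra finitely presented
in it. -/
def IsHigman (F : Type) [Field F] (n : ℕ) : Prop :=
  ∀ (G : Type) [LieRing G] [LieAlgebra F G], RecPresIn F n G →
    ∃ (H : Type) (_ : LieRing H) (_ : LieAlgebra F H), FinPresIn F n H ∧
      ∃ f : G →ₗ⁅F⁆ H, Injective f

theorem lnorm_eq {L : Type} [LieRing L] (l : List L) :
    lnorm l = Pool.Agent.HIL.lnorm l := by
  cases l <;> rfl

theorem val_eq (F : Type) [Field F] {k : ℕ} (e : Expr k) :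
    e.val F = Pool.Agent.HIL.LExpr.val F e := by
  unfold Expr.val Pool.Agent.HIL.LExpr.val
  simp only [lnorm_eq]

theorem isHigman_of (F : Type) [Field F] (n : ℕ) (h : Pool.Agent.HIL.HigmanLie F n) :
    IsHigman F n := by
  intro G _ _ hG
  refine h G ?_
  obtain ⟨k, R, hR, e⟩ := hG
  refine ⟨k, R, hR, ?_⟩
  have hf : (fun e : Expr k => (LieSubmodule.Quotient.mk (e.val F) : RelFree F n k)) =
      fun e : Expr k => (LieSubmodule.Quotient.mk (Pool.Agent.HIL.LExpr.val F e) :
        RelFree F n k) := by
    funext e
    rw [val_eq]
  rw [← hf]
  exact e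

/-- For every `n ≥ 1` the variety of Lie algebras solvable of index `n` over the field of rational
numbers is Higman, and so is the variety of Lie algebras solvable of index `n` over the field with
`p` elements for every odd prime `p`. -/
theorem result : ∀ n : ℕ, 1 ≤ n →
    IsHigman ℚ n ∧ ∀ (p : ℕ) [Fact p.Prime], p ≠ 2 → IsHigman (ZMod p) n := by
  intro n hn
  refine ⟨isHigman_of ℚ n (Pool.Agent.HIP.higman_rat n hn), ?_⟩
  intro p _ hp
  exact isHigman_of (ZMod p) n (Pool.Agent.HIP.higman_zmod p hp n hn)

end Pool.Agent.Results.MP_d47845_al.SolvableLieHigman
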